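import Mathlib

/-!
# Laplacian spread of digraphs: the bound `s(Γ) ≤ n + C` fails for every constant `C`

A digraph on `V` is a `Digraph V` (an adjacency relation); it is simple when it has no loops.
For a digraph `G` on `Fin n` we form the Laplacian `L = D - A` with `D` the diagonal matrix of
out-degrees, and the set of values `xᵀ L x` over the real unit vectors `x` orthogonal to the
all-ones vector.  `α(G)` is the least element of this set, `β(G)` its greatest element, and the
Laplacian spread is `s(G) = β(G) - α(G)`.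

The uniform blow-up of a digraph of order `5` with spread larger than `5` shows that
`s(G) - n` is unbounded above.
-/

open Matrix Finset

namespace Pool.Agent.Results.MP_df5386_co.BlowUp

open Classical in
/-- The adjacency matrix of a digraph, with real entries: `a i j = 1` iff `(i, j)` is an arc. -/
noncomputable def adjMatrix {n : ℕ} (G : Digraph (Fin n)) : Matrix (Fin n) (Fin n) ℝ :=
  Matrix.of fun i j => if G.Adj i j then 1 else 0

open Classical in
/-- The out-degree of a vertex `i`: the number of `j` such that `(i, j)` is an arc. -/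
noncomputable def outDegree {n : ℕ} (G : Digraph (Fin n)) (i : Fin n) : ℕ :=
  (Finset.univ.filter fun j => G.Adj i j).card

/-- The Laplacian `L = D - A` of a digraph, `D` being the diagonal matrix of out-degrees. -/
noncomputable def laplacian {n : ℕ} (G : Digraph (Fin n)) : Matrix (Fin n) (Fin n) ℝ :=
  Matrix.diagonal (fun i => (outDegree G i : ℝ)) - adjMatrix G

/-- The set of the values `xᵀ L x`, for `x` a real vector with `x ⊥ e` and `‖x‖ = 1`. -/
def restrictedValues {n : ℕ} (G : Digraph (Fin n)) : Set ℝ :=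
  {r | ∃ x : Fin n → ℝ, ∑ i, x i = 0 ∧ ∑ i, x i ^ 2 = 1 ∧ r = x ⬝ᵥ (laplacian G *ᵥ x)}

/-! ### The quadratic form -/

open Classical in
theorem quad_eq {n : ℕ} (G : Digraph (Fin n)) (x : Fin n → ℝ) :
    x ⬝ᵥ (laplacian G *ᵥ x)
      = ∑ i, ∑ j, if G.Adj i j then x i * (x i - x j) else 0 := by
  unfold laplacian
  rw [Matrix.sub_mulVec, dotProduct_sub]
  simp only [dotProduct, Matrix.mulVec_diagonal]
  rw [← Finset.sum_sub_distrib]
  refine Finset.sum_congr rfl fun i _ => ?_
  have h1 : (outDegree G i : ℝ) = ∑ j, if G.Adj i j then (1 : ℝ) else 0 := by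
    unfold outDegree
    rw [Finset.card_filter]
    push_cast
    rfl
  have h2 : (adjMatrix G *ᵥ x) i = ∑ j, if G.Adj i j then x j else 0 := by
    simp only [Matrix.mulVec, dotProduct, adjMatrix, Matrix.of_apply]
    refine Finset.sum_congr rfl fun j _ => ?_
    split_ifs <;> simp
  rw [h1, h2, Finset.sum_mul, Finset.mul_sum, Finset.mul_sum, ← Finset.sum_sub_distrib]
  refine Finset.sum_congr rfl fun j _ => ?_
  split_ifs <;> ring

/-! ### Attainment of the minimum and the maximum -/

/-- The admissible vectors. -/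
def sphere (n : ℕ) : Set (Fin n → ℝ) := {x | ∑ i, x i = 0 ∧ ∑ i, x i ^ 2 = 1}

theorem sphere_compact (n : ℕ) : IsCompact (sphere n) := by
  have hsub : sphere n ⊆ Set.pi Set.univ (fun _ : Fin n => Set.Icc (-1 : ℝ) 1) := by
    intro x hx i _
    have h1 : x i ^ 2 ≤ 1 := by
      rw [← hx.2]
      exact Finset.single_le_sum (f := fun i => x i ^ 2) (fun j _ => sq_nonneg _)
        (Finset.mem_univ i)
    exact ⟨by nlinarith, by nlinarith⟩
  refine IsCompact.of_isClosed_subset (isCompact_univ_pi fun _ => isCompact_Icc) ?_ hsub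
  refine IsClosed.inter (isClosed_eq ?_ continuous_const) (isClosed_eq ?_ continuous_const)
  · fun_prop
  · fun_prop

theorem cont_quad {n : ℕ} (G : Digraph (Fin n)) :
    Continuous fun x : Fin n → ℝ => x ⬝ᵥ (laplacian G *ᵥ x) := by
  classical
  have : (fun x : Fin n → ℝ => x ⬝ᵥ (laplacian G *ᵥ x))
      = fun x => ∑ i, ∑ j, if G.Adj i j then x i * (x i - x j) else 0 := by
    funext x
    exact quad_eq G x
  rw [this]
  refine continuous_finsetSum _ fun i _ => continuous_finsetSum _ fun j _ => ?_
  by_cases h : G.Adj i j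
  · simp only [h, if_true]
    fun_prop
  · simp only [h, if_false]
    fun_prop

theorem values_eq {n : ℕ} (G : Digraph (Fin n)) :
    restrictedValues G = (fun x : Fin n → ℝ => x ⬝ᵥ (laplacian G *ᵥ x)) '' sphere n := by
  ext r
  constructor
  · rintro ⟨x, h1, h2, h3⟩
    exact ⟨x, ⟨h1, h2⟩, h3.symm⟩
  · rintro ⟨x, ⟨h1, h2⟩, h3⟩
    exact ⟨x, h1, h2, h3.symm⟩

theorem values_compact {n : ℕ} (G : Digraph (Fin n)) : IsCompact (restrictedValues G) := by
  rw [values_eq]
  exact (sphere_compact n).image (cont_quad G)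

/-! ### The base digraph of order five and its blow-ups -/

/-- The base digraph of order five. -/
def base (i j : Fin 5) : Bool :=
  (![![false, false, false, false, false],
     ![false, false, false, false, false],
     ![true, false, false, true, false],
     ![true, true, true, false, true],
     ![true, true, true, true, false]] : Fin 5 → Fin 5 → Bool) i j

/-- The uniform blow-up: every vertex of the base digraph becomes `m` independent vertices. -/
def blowUp (m : ℕ) : Digraph (Fin (5 * m)) where
  Adj i j := base i.divNat j.divNat = true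

theorem sum_class (m : ℕ) (h : Fin 5 → ℝ) :
    ∑ i : Fin (5 * m), h i.divNat = m * ∑ a, h a := by
  rw [← Equiv.sum_comp (finProdFinEquiv (m := 5) (n := m)) (fun i => h i.divNat),
    Fintype.sum_prod_type]
  have : ∀ (a : Fin 5) (b : Fin m), (finProdFinEquiv (a, b)).divNat = a := by
    intro a b
    exact congrArg Prod.fst (finProdFinEquiv.symm_apply_apply (a, b))
  simp only [this]
  simp [Finset.mul_sum]

theorem quad_blowUp (m : ℕ) (F : Fin 5 → ℝ) (t : ℝ) :
    (fun i : Fin (5 * m) => t * F i.divNat) ⬝ᵥ
        (laplacian (blowUp m) *ᵥ fun i : Fin (5 * m) => t * F i.divNat)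
      = t ^ 2 * m ^ 2 * ∑ a, ∑ b, if base a b = true then F a * (F a - F b) else 0 := by
  classical
  rw [quad_eq]
  have h1 : ∀ i : Fin (5 * m),
      (∑ j : Fin (5 * m), if (blowUp m).Adj i j then
        t * F i.divNat * (t * F i.divNat - t * F j.divNat) else 0)
      = m * ∑ b, if base i.divNat b = true then
          t * F i.divNat * (t * F i.divNat - t * F b) else 0 := by
    intro i
    rw [← sum_class m (fun b => if base i.divNat b = true then
          t * F i.divNat * (t * F i.divNat - t * F b) else 0)]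
    refine Finset.sum_congr rfl fun j _ => ?_
    by_cases hb : base i.divNat j.divNat = true
    · rw [if_pos hb, if_pos (show (blowUp m).Adj i j from hb)]
    · rw [if_neg hb, if_neg (show ¬ (blowUp m).Adj i j from hb)]
  simp only [h1]
  rw [sum_class m (fun a => m * ∑ b, if base a b = true then
          t * F a * (t * F a - t * F b) else 0)]
  rw [Finset.mul_sum, Finset.mul_sum]
  refine Finset.sum_congr rfl fun a _ => ?_
  rw [Finset.mul_sum, Finset.mul_sum, Finset.mul_sum]
  refine Finset.sum_congr rfl fun b _ => ?_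
  split_ifs <;> ring

/-- A vector for the maximum. -/
def F : Fin 5 → ℝ := ![0, 0, -2, 11, -9]

/-- A vector for the minimum. -/
def G : Fin 5 → ℝ := ![-9, 11, -2, 0, 0]

theorem mem_values (m : ℕ) (hm : 1 ≤ m) (H : Fin 5 → ℝ) (h0 : ∑ a, H a = 0)
    (h2 : ∑ a, H a ^ 2 = 206) :
    (m : ℝ) * (∑ a, ∑ b, if base a b = true then H a * (H a - H b) else 0) / 206
      ∈ restrictedValues (blowUp m) := by
  have hm' : (0 : ℝ) < m := by exact_mod_cast hm
  set t : ℝ := 1 / Real.sqrt (206 * m) with ht
  have ht2 : t ^ 2 = 1 / (206 * m) := by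
    rw [ht, div_pow, one_pow, Real.sq_sqrt (by positivity)]
  refine ⟨fun i => t * H i.divNat, ?_, ?_, ?_⟩
  · rw [← Finset.mul_sum, sum_class, h0]
    simp
  · have : ∀ i : Fin (5 * m), (t * H i.divNat) ^ 2 = t ^ 2 * (H i.divNat ^ 2) := by
      intro i
      ring
    simp only [this]
    rw [← Finset.mul_sum, sum_class m (fun a => H a ^ 2), h2, ht2]
    field_simp
  · rw [quad_blowUp, ht2]
    field_simp

theorem sumF : (∑ a, ∑ b, if base a b = true then F a * (F a - F b) else 0) = 1040 := by
  simp [Fin.sum_univ_succ, base, F]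
  norm_num

theorem sumG : (∑ a, ∑ b, if base a b = true then G a * (G a - G b) else 0) = -10 := by
  simp [Fin.sum_univ_succ, base, G]
  norm_num

/-- **The bound `s(Γ) ≤ n + C` fails for every constant `C`.**  For every real `C` there is a
loopless digraph `Γ` of some order `n ≥ 2` whose Laplacian spread `β(Γ) - α(Γ)` is larger than
`n + C`. -/
theorem result : ∀ C : ℝ, ∃ n : ℕ, 2 ≤ n ∧ ∃ Γ : Digraph (Fin n), (∀ i, ¬ Γ.Adj i i) ∧
    ∃ α β : ℝ, IsLeast (restrictedValues Γ) α ∧ IsGreatest (restrictedValues Γ) β ∧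
      (n : ℝ) + C < β - α := by
  intro C
  obtain ⟨m, hm⟩ := exists_nat_gt (max C 0 * 11 + 1)
  have hC0 : (0 : ℝ) ≤ max C 0 := le_max_right _ _
  have hm1 : 1 ≤ m := by
    have : (1 : ℝ) < m := by linarith
    exact_mod_cast this.le
  have hC : C ≤ max C 0 := le_max_left _ _
  have hmF := mem_values m hm1 F (by simp [F, Fin.sum_univ_succ]; norm_num)
    (by simp [F, Fin.sum_univ_succ]; norm_num)
  have hmG := mem_values m hm1 G (by simp [G, Fin.sum_univ_succ]; norm_num)
    (by simp [G, Fin.sum_univ_succ]; norm_num)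
  rw [sumF] at hmF
  rw [sumG] at hmG
  obtain ⟨α, hα⟩ := (values_compact (blowUp m)).exists_isLeast ⟨_, hmF⟩
  obtain ⟨β, hβ⟩ := (values_compact (blowUp m)).exists_isGreatest ⟨_, hmF⟩
  refine ⟨5 * m, by omega, blowUp m, ?_, α, β, hα, hβ, ?_⟩
  · intro i
    simp only [blowUp]
    have : ∀ a : Fin 5, base a a = false := by decide
    simp [this]
  · have h1 := hα.2 hmG
    have h2 := hβ.2 hmF
    push_cast
    linarith

end Pool.Agent.Results.MP_df5386_co.BlowUp
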